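import Pool.Agent.MkC.Assemble
import Pool.Agent.MkC.ConnL
import Pool.Agent.MkC.GoodB

/-!
# Incomplete closed affine manifolds with parallel volume exist in every dimension `n ≥ 3`

A closed affine `3`-manifold is glued from `22` open boxes of `ℝ³` with `1002` transition maps, which are
affine with diagonal linear part of determinant one (`Pool/Agent/MkC/CertA/Data.lean`).  The
conditions on these data (the overlaps, the cocycle condition, the cover by compact boxes, a
straight path inside one box which is mapped to itself by a transition map that multiplies its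
direction by a number larger than one) are finite exact computations, checked by the kernel
(`Pool/Agent/MkC/Fast.lean`, `Pool/Agent/MkC/GoodB.lean`).  The glued space is a compact connected
Hausdorff second countable manifold (`Glue.lean`, `Loc.lean`, `ConnL.lean`), the straight path
becomes a closed geodesic which is run through in shorter and shorter times (`Closed.lean`), and
the products with circles give the higher dimensions (`ProdL.lean`).
-/

set_option autoImplicit false

open Set Topology Filter

namespace Pool.Agent.Results.MP_df2bd8_gt.EveryDimension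

/-- The chart changes of `M` are locally affine maps whose linear part is a diagonal matrix of
determinant one: `M` is an affine manifold with diagonal linear holonomy, with the parallel volume
form `dx₁ ∧ … ∧ dxₙ`. -/
def DiagonalAtlas (n : ℕ) (M : Type) [TopologicalSpace M]
    [ChartedSpace (EuclideanSpace ℝ (Fin n)) M] : Prop :=
  ∀ e ∈ atlas (EuclideanSpace ℝ (Fin n)) M, ∀ e' ∈ atlas (EuclideanSpace ℝ (Fin n)) M,
    ∀ y ∈ (e.symm.trans e').source,
      ∃ (A : EuclideanSpace ℝ (Fin n) ≃ᵃ[ℝ] EuclideanSpace ℝ (Fin n)) (a : Fin n → ℝ),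
        ∏ k, a k = 1 ∧ (∀ v k, A.linear v k = a k * v k) ∧
        ∀ᶠ z in 𝓝 y, (e.symm.trans e') z = A z

/-- The curve `γ` in `M` is a geodesic near the time `t`: it is an affine function of the time in
the chart at `γ t`. -/
def StraightAt (n : ℕ) {M : Type} [TopologicalSpace M]
    [ChartedSpace (EuclideanSpace ℝ (Fin n)) M] (γ : ℝ → M) (t : ℝ) : Prop :=
  ∃ p w : EuclideanSpace ℝ (Fin n), ∀ᶠ s in 𝓝 t,
    γ s ∈ (chartAt (EuclideanSpace ℝ (Fin n)) (γ t)).source ∧
    chartAt (EuclideanSpace ℝ (Fin n)) (γ t) (γ s) = p + s • w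

/-- **The Markus conjecture fails in every dimension `n ≥ 3`.**  There is a closed (compact,
connected, Hausdorff, second countable) `n`-manifold `M` with an affine atlas whose chart changes
have diagonal linear parts of determinant one, and a geodesic `γ : (-∞, 1) → M` which is closed
with multiplier `lam > 1`, that is `γ (1 - (1 - t) / lam) = γ t` for all `t < 1`, which has no limit
in `M` at the time `1`, and such that no geodesic `δ : ℝ → M` agrees with `γ` near the time `0`.  In
particular `M` has a parallel volume form and is not geodesically complete. -/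
theorem result (n : ℕ) (hn : 3 ≤ n) :
    ∃ (M : Type) (_ : TopologicalSpace M) (_ : T2Space M) (_ : SecondCountableTopology M)
      (_ : CompactSpace M) (_ : ConnectedSpace M)
      (_ : ChartedSpace (EuclideanSpace ℝ (Fin n)) M),
      DiagonalAtlas n M ∧
      ∃ (γ : ℝ → M) (lam : ℝ), 1 < lam ∧ (∀ t : ℝ, t < 1 → StraightAt n γ t) ∧
        (∀ t : ℝ, t < 1 → γ (1 - (1 - t) / lam) = γ t) ∧
        (¬ ∃ m : M, Tendsto γ (𝓝[<] 1) (𝓝 m)) ∧
        ¬ ∃ δ : ℝ → M, (∀ t : ℝ, StraightAt n δ t) ∧ ∀ᶠ t in 𝓝 (0 : ℝ), δ t = γ t := by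
  obtain ⟨D, hD⟩ := Pool.Agent.MkC.exists_good_dim n hn
  obtain ⟨i₀, y₀, u₀, T, lam, hy₀, hu₀, hlam, hloop⟩ := hD.loop
  obtain ⟨S, hS, hK, i, hi, hst⟩ := D.exists_refine hy₀ hloop
  obtain ⟨γ, h1, h2, h3, h4⟩ :=
    Pool.Agent.MkC.Glue.exists_closed (D.refine S hS hK) hi hu₀ hlam hst
  refine ⟨(D.refine S hS hK).M, inferInstance, inferInstance,
    Pool.Agent.MkC.Glue.secondCountable _, inferInstance,
    D.refine_connectedSpace S hS hK hD.pre hD.graph ⟨i⟩, inferInstance, ?_,
    γ, lam, hlam, h1, h2, h3, h4⟩
  rintro e ⟨i, rfl⟩ e' ⟨j, rfl⟩ y hy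
  obtain ⟨φ, hφ, -, -, h⟩ := (D.refine S hS hK).transition i j hy
  obtain ⟨a, ha, ha'⟩ := Pool.Agent.MkC.IsDiag.prod_eq_one (hD.diag i.1 j.1 φ hφ)
    (D.Φ_det i.1 j.1 φ hφ)
  exact ⟨φ, a, ha, ha', h⟩

end Pool.Agent.Results.MP_df2bd8_gt.EveryDimension
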