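import Pool.Agent.Helper77.KT.Final
import Pool.Agent.Helper77.K4.Pull

/-!
# Kleinian affine manifolds with parallel volume: codimension three, and codimension four with a
radical

Let `M = Γ\Ω` be a compact affine manifold with parallel volume, of any dimension, whose developing
map is injective: `Ω` is a connected open subset of `V` and `Γ` is a group of affine automorphisms of
`V` which acts freely and properly discontinuously on `Ω` with compact quotient.  Let `F₁` be the span
of the translations contained in `Γ`, let `F₂ ⊇ F₁` be the span of the vectors `v` such that some
element of `Γ` acts on `V/F₁` as the translation by the class of `v`, and so on.  If for some `k`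

* `F_k` has codimension at most three in `V`, or
* `F_k` has codimension at most four in `V` and some subgroup of finite index of `Γ` has a normal
  subgroup which acts on `V/F_k` through an infinite solvable group,

then `Ω = V`, i.e. `M` is complete.

For `k = 0` (`F_0 = 0`) this is the statement that all such manifolds of dimension at most three are
complete (no condition on `Γ`), and so are those of dimension four for which some subgroup of finite
index of `Γ` has an infinite solvable normal subgroup.

Outline of the proof.

*Saturation.*  Suppose that `Γ` has a torsion free abelian normal subgroup `A ≠ 1`.  No proper affine
subspace is invariant under a subgroup of finite index, so `A` is unipotent (the points at which all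
`a ∈ A` are generalised fixed points form an invariant affine subspace), and `A` is a lattice in a
vector group `E` of affine maps, the span of the logarithms, which `Γ` normalises; `Γ` preserves the
Haar measure of `E`.  Let `K` be a compact subset of `Ω` which meets all orbits and let `x` be in `Ω`.
If `γ K` meets `E x`, then the set of `e` in `E` with `e x ∈ γ K'` (`K'` a neighbourhood of `K`) has
volume bounded below.  The action is proper, so these sets have bounded multiplicity, and `E/A` has
finite volume.  Hence `γ K` meets `E x` for finitely many classes `A γ` only, and
`{e | e x ∈ Ω}` is closed in `E`.  It is also open, so that `E x ⊆ Ω`; and `E` acts freely on `Ω`.  For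
the group of translations of `Γ` this shows that `Ω` is invariant under `F₁`.

*Quotient.*  If the orbit space of `E` is an affine space `Q` (this is so for `F₁`, for a group `E` acting
simply transitively on some `V/W`, and for a group `E` whose orbits are the cosets of a subspace), then
the group induced by `Γ` on `Q` acts properly discontinuously on the image of `Ω`, with compact
quotient, and preserves the volume; it need not act freely.  The translations are divided out until
the dimension is at most three, or four.  In dimension at most three, by Selberg's lemma, a subgroup
of finite index acts freely, and the theorem on Kleinian structures of dimension at most three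
applies.

*Dimension four.*  Let `A` be the last nontrivial derived subgroup of an infinite solvable normal
subgroup of a torsion free subgroup of finite index, and let `E` be as above.  A study of the abelian
nilpotent Lie algebras of affine vector fields on a space of dimension four which are normalised by
a group without invariant affine subspace shows that one of the following holds: `E` acts simply
transitively on some `V/W`; the orbits of `E` are the cosets of a subspace; the linear parts of `Γ` form
a virtually solvable group; `E` has dimension four, and `A` has finite index in `Γ`.  In the last two
cases `Γ` is virtually solvable, and the theorem on virtually solvable holonomy applies; in the first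
two the quotient has dimension at most three.

*Dimension three.*  Files `Pool/Agent/Helper77/K3` and the modules imported by
`Pool/Agent/Helper77/K3/Main.lean`.  Let `K` be the complement of `Ω`, assumed to be nonempty.
No proper convex set is `Γ`-invariant, every plane meets `Ω`, through every boundary point of `Ω`
passes a line contained in `K`, and there is no `Γ`-equivariant `C¹` map `Ω → V` whose Jacobian
determinant vanishes identically.  If the linear part is strongly irreducible, then proper
discontinuity gives a sign inequality for the flags of the elements of `Γ`, `Γ` is discrete in
`SL(3,ℝ)` and has one end (the complement of `Ω` is a union of lines), and a subgroup of finite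
index preserves a properly convex cone; then there is an equivariant map of `Ω` into `V` which
factors through a surface, a contradiction.  If the linear part is virtually reducible, the group
preserves a plane or a line direction, and in each case proper discontinuity, applied to suitable
sequences in `Γ`, shows that `K` contains a plane, or that some convex set is invariant, or that `Γ`
acts properly discontinuously on all of `V`.
-/

set_option autoImplicit false

open Set

universe u v w

namespace Pool.Agent.Results.MP_df2bd8_gt.KleinianRadical

open Pool.Agent.Helper2.MK

variable {V : Type u} {G : Type v} {Y : Type w} [NormedAddCommGroup V] [NormedSpace ℝ V]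
  [Group G] [TopologicalSpace Y] [MulAction G Y]

/-- The span of all vectors `v` such that some holonomy transformation acts on the quotient of `V` by
the subspace `F` as the translation by the class of `v`.  It contains `F`. -/
noncomputable def layer (M : AffineDeveloping V G Y) (F : Submodule ℝ V) : Submodule ℝ V :=
  Submodule.span ℝ {v | ∃ g : G, ∀ x, M.hol g x - (x + v) ∈ F}

/-- The flag of translations: it begins with `0`, its next member is the span of the translations
contained in the affine holonomy group, and each further member is the `layer` of the preceding
one. -/
noncomputable def flag (M : AffineDeveloping V G Y) : ℕ → Submodule ℝ V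
  | 0 => ⊥
  | k + 1 => layer M (flag M k)

/-- Some subgroup `H` of finite index of `G` has a normal subgroup `S` which acts on the quotient
`V ⧸ F` through an infinite solvable group: some member of the derived series of `S` acts trivially
on `V ⧸ F`, and the elements of `S` induce infinitely many maps of `V ⧸ F`. -/
def HasRadical (M : AffineDeveloping V G Y) (F : Submodule ℝ V) : Prop :=
  ∃ H : Subgroup G, H.FiniteIndex ∧ ∃ S : Subgroup H, S.Normal ∧
    (∃ n, ∀ s ∈ derivedSeries S n, ∀ x, M.hol ((s : S) : H) x - x ∈ F) ∧
    {f : V → V ⧸ F | ∃ s ∈ S, ∀ x, f x = F.mkQ (M.hol s x)}.Infinite

theorem flag_eq (M : AffineDeveloping V G Y) (k : ℕ) :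
    flag M k = Pool.Agent.Helper77.KT.flag M.holHom.range k := by
  induction k with
  | zero => rfl
  | succ k ih =>
    change Submodule.span ℝ {v | ∃ g : G, ∀ x, M.hol g x - (x + v) ∈ flag M k} =
      Submodule.span ℝ {v | ∃ γ ∈ M.holHom.range, ∀ x,
        γ x - (x + v) ∈ Pool.Agent.Helper77.KT.flag M.holHom.range k}
    rw [ih]
    congr 1
    ext v
    constructor
    · rintro ⟨g, hg⟩
      exact ⟨M.holHom g, ⟨g, rfl⟩, hg⟩
    · rintro ⟨_, ⟨g, rfl⟩, hg⟩
      exact ⟨g, hg⟩

/-- A compact affine manifold with parallel volume and injective developing map is complete if some
member `F` of its flag of translations has codimension at most three, or has codimension at most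
four and some subgroup of finite index of the deck group has a normal subgroup which acts on
`V ⧸ F` through an infinite solvable group. -/
theorem result [FiniteDimensional ℝ V] [ConnectedSpace Y] (M : AffineDeveloping V G Y)
    (hinj : Function.Injective M.dev) (k : ℕ)
    (hk : Module.finrank ℝ V ≤ Module.finrank ℝ (flag M k) + 3 ∨
      Module.finrank ℝ V ≤ Module.finrank ℝ (flag M k) + 4 ∧ HasRadical M (flag M k)) :
    ∃ e : Y ≃ₜ V, ⇑e = M.dev := by
  have h2 : HasRadical M (flag M k) → Pool.Agent.Helper77.K4.Rad M.holHom.range (flag M k) := by
    rintro ⟨H, hH, S, hS, hsol, hinf⟩
    exact Pool.Agent.Helper77.K4.rad_of_hom M.holHom (flag M k) H hH S hS hsol hinf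
  rw [flag_eq] at hk h2
  have h1 : range M.dev = univ := Pool.Agent.Helper77.K4.univ_of_flag
    (Pool.Agent.Helper77.KT.klein_of_developing M hinj) k (hk.imp id fun h => ⟨h.1, h2 h.2⟩)
  exact ⟨M.dev_local.toHomeomorphOfBijective ⟨hinj, range_eq_univ.mp h1⟩, rfl⟩

end Pool.Agent.Results.MP_df2bd8_gt.KleinianRadical
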