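import Pool.Agent.Helper2.RO.Final

/-!
# Compact affine manifolds with linear holonomy of rank one type are complete

Let `V` be a finite-dimensional real inner product space and let `M` be a compact affine manifold
with parallel volume modelled on `V`, with an arbitrary (not necessarily injective) developing map
`dev : Y → V`.  Suppose that the linear holonomy lies in a group `G₀` of linear automorphisms of
`V` which is closed under adjoints and has a Cartan decomposition of rank one type: the positive
operators in `G₀` are the exponentials of the elements of a linear space `P` of symmetric
operators, and every `S` in `P` satisfies `S ^ 3 = c S` for some real `c` (so that its eigenvalues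
are `√c`, `0`, `-√c`).  In other words `G₀` is reductive of real rank at most one, with arbitrary
compact part, and its restricted weights on `V` are `λ`, `0`, `-λ`.  Then `M` is complete, i.e.
`dev` is a homeomorphism of `Y` onto `V`.

The group `O(k,1)` gives Carrière's theorem on compact flat Lorentz manifolds, `U(k,1)` the
completeness of compact flat Hermite-Lorentz manifolds.  More generally, the group preserving the
form `⟪J x, y⟫`, for a symmetric involution `J`, and normalising a set `A` of operators which
commute with `J` and act irreducibly on `ker (J + 1)` is of this kind: see `main_form` in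
`Pool/Agent/Helper2/RO/Final.lean`.  This contains `Sp(k,1) Sp(1)` and the tensor products of
Hermitian forms of signature `(k, 1)` over the reals, complex numbers or quaternions with definite
ones.  Other examples are `SL(2,ℂ)` on `ℂ²`, `SL(2,ℍ)` on `ℍ²`, `SO(3,ℂ)` on `ℂ³`.

Outline of the proof (files `Pool/Agent/Helper2/RO`).  For `y` in `Y` let `S_y` be the star domain
of `y` in `V` and, for `S` in `P`, let `r_y(S)` be the radius of the largest ball around `dev y` in
`S_y` for the norm `|x|_S = |exp(S) x|`.  At a contact point `b` of such a ball the complement of
`S_y` contains, relative to convex charts, the affine subspace `b + ker E₊(η)` near `b` for some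
unit `η` in `P`, where `E₊(η)` is the spectral projection of `η` for the eigenvalue `1` (module
LE), and this leads to a support inequality for `1 / r_y(S)`, which is hyperbolically convex along
rays of `P` (modules Supp, Conv).  The invariant function `y ↦ inf_S 1 / r_y(S)` attains its
maximum.  If the maximum is positive then the contact directions at the maximum are balanced;
moving `y` away from one of them contradicts the support inequalities at second order (module
CaseE).  If the function vanishes, every `S_y` contains a slab `|E₊(η)(x - dev y)| < c` with `η`
independent of `y`, the holonomy acts by similarities on `V / ker E₊(η)`, and a zooming argument in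
the style of Fried produces an equivariant Lipschitz map to `V / ker E₊(η)` which is constant along
segments (module Zoom).  This contradicts the projection obstruction `no_quotient_projection`, a
consequence of Stokes' theorem for equivariant Lipschitz maps.
-/

set_option autoImplicit false

open Set

namespace Pool.Agent.Results.MP_df2bd8_gt.RankOne

open Pool.Agent.Helper2.MK

/-- Compact affine manifolds with parallel volume are complete if the linear holonomy lies in a
self-adjoint group `G₀` whose positive part is `exp P`, where `P` is a linear space of symmetric
operators with `S ^ 3 ∈ ℝ S` for all `S ∈ P`. -/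
theorem result {V G Y : Type*} [NormedAddCommGroup V] [InnerProductSpace ℝ V]
    [FiniteDimensional ℝ V] [Group G] [TopologicalSpace Y] [T2Space Y] [ConnectedSpace Y]
    [MulAction G Y] (M : AffineDeveloping V G Y) (G₀ : Subgroup (V ≃L[ℝ] V))
    (P : Submodule ℝ (V →L[ℝ] V))
    (hadj : ∀ A ∈ G₀, ∃ B ∈ G₀, ∀ x y : V, inner ℝ (A x) y = inner ℝ x (B y))
    (hsym : ∀ S ∈ P, ∀ x y : V, inner ℝ (S x) y = inner ℝ x (S y))
    (hpos : ∀ A : V ≃L[ℝ] V, (A ∈ G₀ ∧ (A : V →L[ℝ] V).IsPositive) ↔
      ∃ S ∈ P, (A : V →L[ℝ] V) = NormedSpace.exp S)
    (hcube : ∀ S ∈ P, ∃ c : ℝ, S * S * S = c • S)
    (hlin : ∀ g : G, ∃ L ∈ G₀, ∀ x, (M.hol g).linear x = L x) :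
    ∃ E : Y ≃ₜ V, ⇑E = M.dev :=
  Pool.Agent.Helper2.RO.main_group M G₀ P hadj hsym hpos hcube hlin

end Pool.Agent.Results.MP_df2bd8_gt.RankOne
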