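import Pool.Agent.SOL.Main

/-!
# Compact affine manifolds with parallel volume and virtually solvable holonomy

Let `M` be a compact affine manifold with parallel volume, of any dimension, whose affine holonomy
group is virtually solvable.  If the developing map is finite-to-one over some nonempty open subset
of the developing image (for instance if it is injective, `M = Γ\Ω`, or finite-to-one), then `M` is
complete.  In other words: either `M` is complete, or the points of the developing image with
infinitely many preimages are dense in the developing image.

Outline of the proof (files `Pool/Agent/SOL`).

*The hull.*  After passing to a subgroup of finite index the affine holonomy group `Γ` is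
triangular over the complex numbers, by Mal'cev's theorem.  Let `U` be the Zariski closure of the
group generated by the unipotent parts and the commutators of the elements of `Γ`, and let `D` be the
Zariski closure of `N = [Γ, Γ]`.  Both groups consist of unipotent affine maps, `Γ` normalises `U`,
`[Γ, U]` is contained in `D`, and `D = N C` with `C` compact (Mal'cev).

*Transitivity.*  `U` acts transitively on `V`, with a continuous section.  Otherwise, in a flag of
subspaces, one finds a closed `Γ`-invariant smooth graph without interior points: on the first level
where transitivity fails the group `Γ` acts by commuting semisimple affine maps which have a common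
fixed point.  Such a graph is a locally Lipschitz retract of `V`, and an invariant retract contains
the developing image, by a degree argument which uses the parallel volume.

*Recurrence.*  If `M` is not complete there are `gₖ` in the deck group, leaving all finite sets, and
points `zₖ` in a compact set such that `dev (gₖ zₖ)` converges.  By transitivity there are `sₖ`, `tₖ` in
a compact subset of `U` such that `hₖ = sₖ⁻¹ gₖ tₖ` fixes a given point `p`, and since `[Γ, U] ⊆ D = N C`
the sets `Eₖ = gₖ⁻¹ O sₖ⁻¹ gₖ tₖ` (`O` open in `U`) are contained in `N C'` with `C'` compact.  Their Haar
measures are bounded below, for `gₖ` or for `gₖ⁻¹`.  A point `x` of `C'` has a translate `n x`, `n` in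
`N`, in `Eₖ` for more pairs `(k, n)` than `m`, for any given `m`, and the different pairs give different
preimages of `x p` under the developing map.  By Baire's theorem the number of preimages is bounded on an
open set, which is a contradiction.
-/

set_option autoImplicit false

open Set

namespace Pool.Agent.Results.MP_df2bd8_gt.VirtuallySolvable

open Pool.Agent.Helper2.MK

/-- A compact affine manifold with parallel volume and virtually solvable affine holonomy whose
developing map is finite-to-one over some nonempty open subset of its image is complete. -/
theorem result {V G Y : Type*} [NormedAddCommGroup V] [NormedSpace ℝ V] [FiniteDimensional ℝ V]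
    [Group G] [TopologicalSpace Y] [T2Space Y] [ConnectedSpace Y] [MulAction G Y]
    (M : AffineDeveloping V G Y)
    (hsol : ∃ H : Subgroup G, H.FiniteIndex ∧ Group.IsSolvable (H.map M.holHom))
    (hfin : ∃ B : Set V, IsOpen B ∧ (B ∩ range M.dev).Nonempty ∧
      ∀ v ∈ B, (M.dev ⁻¹' {v}).Finite) :
    ∃ e : Y ≃ₜ V, ⇑e = M.dev :=
  Pool.Agent.SOL.complete_of_solvable M hsol hfin

end Pool.Agent.Results.MP_df2bd8_gt.VirtuallySolvable
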